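import Mathlib
import Pool.Agent.Work.MP_974d84_co_circ.Lattice

/-!
In a connected multigraph every real vector with sum zero is a divergence.
-/

namespace Pool.Agent.Circ

open Finset

set_option linter.unusedSectionVars false

variable {V E : Type*} [Fintype V] [DecidableEq V] [Fintype E] [DecidableEq E]

/-- In a connected multigraph every vector with sum zero is a divergence. -/
theorem exists_dv_eq (s t : E → V)
    (hconn : ∀ X : Finset V, X.Nonempty → X ≠ univ → (cut s t X).Nonempty) (x : V → ℝ)
    (hx : ∑ v, x v = 0) : ∃ z : E → ℝ, ∀ v, dv s t z v = x v := by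
  classical
  let W : Submodule ℝ (EuclideanSpace ℝ V) :=
    { carrier := {w | ∃ z : E → ℝ, ∀ v, w v = dv s t z v}
      add_mem' := by
        rintro a b ⟨y, hy⟩ ⟨y', hy'⟩
        refine ⟨fun e => y e + y' e, fun v => ?_⟩
        rw [dv_add]
        simp only [PiLp.add_apply, hy, hy']
      zero_mem' := ⟨fun _ => 0, fun v => by simp [dv]⟩
      smul_mem' := by
        rintro r a ⟨y, hy⟩
        refine ⟨fun e => r * y e, fun v => ?_⟩
        rw [dv_smul]
        simp only [PiLp.smul_apply, hy, smul_eq_mul] }
  let b : EuclideanSpace ℝ V := WithLp.toLp 2 x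
  obtain ⟨w, hw, hb⟩ := Submodule.HasOrthogonalProjection.exists_orthogonal (K := W) b
  rw [Submodule.mem_orthogonal'] at hb
  obtain ⟨z, hz⟩ := hw
  set u : V → ℝ := fun v => x v - dv s t z v with hu
  have hbu : ∀ f : E → ℝ, ∑ v, u v * dv s t f v = 0 := by
    intro f
    have h1 := hb (WithLp.toLp 2 fun v => dv s t f v) ⟨f, fun v => rfl⟩
    rw [PiLp.inner_apply] at h1
    rw [← h1]
    refine Finset.sum_congr rfl fun v _ => ?_
    simp only [PiLp.sub_apply, hz, b, RCLike.inner_apply, conj_trivial, hu]
    ring
  have hedge : ∀ e, u (s e) = u (t e) := by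
    intro e0
    have h1 := hbu (fun e => if e = e0 then 1 else 0)
    rw [sum_mul_dv] at h1
    simp only [ite_mul, one_mul, zero_mul, Finset.sum_ite_eq', mem_univ, if_true] at h1
    linarith
  have hconst : ∀ v w, u v = u w := by
    intro v w
    by_contra hne
    obtain ⟨e, he⟩ := hconn (univ.filter fun a => u a = u v) ⟨v, by simp⟩ (fun h => hne (by
      have : w ∈ univ.filter fun a => u a = u v := by rw [h]; exact mem_univ w
      exact (Finset.mem_filter.1 this).2.symm))
    simp only [cut, mem_filter, mem_univ, true_and] at he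
    exact he (by rw [hedge e])
  have hzero : ∑ v, u v * u v = 0 := by
    have h1 : ∑ v, u v * u v = ∑ v, u v * x v - ∑ v, u v * dv s t z v := by
      rw [← Finset.sum_sub_distrib]
      refine Finset.sum_congr rfl fun v _ => ?_
      simp only [hu]
      ring
    rw [h1, hbu z, sub_zero]
    by_cases hV : Nonempty V
    · obtain ⟨v0⟩ := hV
      have h2 : ∑ v, u v * x v = u v0 * ∑ v, x v := by
        rw [Finset.mul_sum]
        exact Finset.sum_congr rfl fun v _ => by rw [hconst v v0]
      rw [h2, hx, mul_zero]
    · exact Finset.sum_eq_zero fun v _ => absurd ⟨v⟩ hV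
  refine ⟨z, fun v => ?_⟩
  have h2 : u v * u v = 0 :=
    (Finset.sum_eq_zero_iff_of_nonneg fun v _ => mul_self_nonneg (u v)).1 hzero v (mem_univ v)
  have h3 : u v = 0 := mul_self_eq_zero.1 h2
  simp only [hu] at h3
  linarith

end Pool.Agent.Circ
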