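import Mathlib
import Pool.Agent.Work.MP_974d84_co_circ.Lattice

/-!
The closest vector in the effective resistance norm, for a general modulus `q` and a general base
divergence `b`.
-/

namespace Pool.Agent.Circ

open Finset

set_option linter.unusedSectionVars false

variable {V E : Type*} [Fintype V] [DecidableEq V] [Fintype E] [DecidableEq E]

/-- The chains with divergence `b` modulo `q`. -/
def CosM (s t : E → V) (b : V → ℝ) (q : ℝ) : Set (E → ℝ) :=
  {z | ∀ v, ∃ k : ℤ, dv s t z v = b v + q * k}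

theorem isClosed_cosM (s t : E → V) (b : V → ℝ) {q : ℝ} (hq : 0 < q) :
    IsClosed (CosM s t b q) := by
  have h : CosM s t b q = ⋂ v, (fun z : E → ℝ => dv s t z v) ⁻¹'
      (Set.range fun k : ℤ => b v + q * (k : ℝ)) := by
    ext z
    simp only [CosM, Set.mem_ofPred_eq, Set.mem_iInter, Set.mem_preimage, Set.mem_range, eq_comm]
  rw [h]
  refine isClosed_iInter fun v => IsClosed.preimage (continuous_dv s t v) ?_
  have h1 : (Set.range fun k : ℤ => b v + q * (k : ℝ)) =
      (fun r : ℝ => (r - b v) / q) ⁻¹' (Set.range ((↑) : ℤ → ℝ)) := by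
    ext r
    simp only [Set.mem_range, Set.mem_preimage]
    constructor
    · rintro ⟨k, rfl⟩
      exact ⟨k, by field_simp; ring⟩
    · rintro ⟨k, hk⟩
      refine ⟨k, ?_⟩
      rw [hk]
      field_simp
      ring
  rw [h1]
  refine IsClosed.preimage (by fun_prop) ?_
  exact Int.isClosedEmbedding_coe_real.isClosed_range

theorem exists_minM (s t : E → V) (c : E → ℝ) (hc : ∀ e, 0 < c e) (b : V → ℝ) {q : ℝ}
    (hq : 0 < q) (z0 : E → ℝ) (h1 : z0 ∈ CosM s t b q) :
    ∃ z ∈ CosM s t b q, ∀ z' ∈ CosM s t b q, En c z ≤ En c z' := by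
  set R : ℝ := En c z0 with hR
  set K : Set (E → ℝ) := CosM s t b q ∩ {z | En c z ≤ R} with hK
  have hKc : IsClosed K :=
    (isClosed_cosM s t b hq).inter (isClosed_le (continuous_En c) continuous_const)
  have hsub : K ⊆ Set.pi Set.univ fun e : E => Set.Icc (-(1 + c e * R)) (1 + c e * R) := by
    intro z hz e _
    have h2 : z e ^ 2 / c e ≤ R := by
      refine le_trans ?_ hz.2
      exact Finset.single_le_sum (f := fun e => z e ^ 2 / c e)
        (fun i _ => div_nonneg (sq_nonneg _) (hc i).le) (mem_univ e)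
    rw [div_le_iff₀ (hc e)] at h2
    constructor <;> nlinarith [sq_nonneg (z e - 1), sq_nonneg (z e + 1)]
  have hcomp : IsCompact K :=
    (isCompact_univ_pi fun e => isCompact_Icc).of_isClosed_subset hKc hsub
  have hone : z0 ∈ K := by
    refine ⟨h1, ?_⟩
    show En c z0 ≤ R
    exact hR.ge
  obtain ⟨z, hz, hmin⟩ := hcomp.exists_isMinOn ⟨_, hone⟩ (continuous_En c).continuousOn
  refine ⟨z, hz.1, fun z' hz' => ?_⟩
  by_cases h : En c z' ≤ R
  · exact hmin ⟨hz', h⟩
  · exact hz.2.trans (le_of_not_ge h)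

/-- Lattice minimum for the modulus `q`: the ground state has all currents at most `(q / 2) x`. -/
theorem exists_lattice_mod (s t : E → V) (c : E → ℝ) (hc : ∀ e, 0 < c e) (x : ℝ) (hx0 : 0 ≤ x)
    (hx : ∀ (y : V → ℝ) (e : E), c e * (y (s e) - y (t e)) ^ 2 ≤ x * Q s t c y)
    (b : V → ℝ) {q : ℝ} (hq : 0 < q) (z0 : E → ℝ) (k0 : V → ℤ)
    (h0 : ∀ v, dv s t z0 v = b v + q * k0 v) :
    ∃ (z : E → ℝ) (k : V → ℤ), (∀ e, |z e| ≤ q / 2 * x) ∧
      ∀ v, dv s t z v = b v + q * k v := by
  obtain ⟨z, hz, hmin⟩ := exists_minM s t c hc b hq z0 (fun v => ⟨k0 v, h0 v⟩)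
  choose k hk using hz
  refine ⟨z, k, fun e0 => ?_, hk⟩
  -- the minimiser is orthogonal to flows
  have horth : ∀ f : E → ℝ, (∀ v, dv s t f v = 0) → ∑ e, z e * f e / c e = 0 := by
    intro f hf
    have h1 : ∀ a : ℝ, 0 ≤ 2 * a * (∑ e, z e * f e / c e) + a ^ 2 * En c f := by
      intro a
      have h2 := hmin (fun e => z e + a * f e) (fun v => ⟨k v, by
        rw [dv_add, dv_smul, hf, hk]; ring⟩)
      rw [En_add] at h2
      linarith
    set S := ∑ e, z e * f e / c e with hS
    have hE : 0 ≤ En c f := Finset.sum_nonneg fun e _ => div_nonneg (sq_nonneg _) (hc e).le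
    by_contra hne
    have h3 := h1 (-S / (1 + En c f))
    have hpos : 0 < 1 + En c f := by linarith
    have hS2 : 0 < S ^ 2 := by positivity
    have h4 : 2 * (-S / (1 + En c f)) * S + (-S / (1 + En c f)) ^ 2 * En c f =
        -(S ^ 2) * (2 + En c f) / (1 + En c f) ^ 2 := by
      field_simp
      ring
    rw [h4] at h3
    have h5 : -(S ^ 2) * (2 + En c f) / (1 + En c f) ^ 2 < 0 := by
      apply div_neg_of_neg_of_pos
      · nlinarith
      · positivity
    linarith
  obtain ⟨y, hy⟩ := exists_elec s t c hc e0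
  set g : E → ℝ := fun e => c e * (y (s e) - y (t e)) with hg
  have hzg : ∑ e, z e * g e / c e = z e0 / c e0 := by
    have h1 := horth (fun e => (if e = e0 then 1 else 0) + (-1) * g e) (fun v => by
      rw [dv_add, dv_smul, dv_single, hy]; ring)
    have h2 : ∑ e, z e * ((if e = e0 then 1 else 0) + (-1) * g e) / c e =
        z e0 / c e0 - ∑ e, z e * g e / c e := by
      have h3 : z e0 / c e0 = ∑ e, if e = e0 then z e / c e else 0 := by simp
      rw [h3, ← Finset.sum_sub_distrib]
      refine Finset.sum_congr rfl fun e _ => ?_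
      split_ifs <;> ring
    linarith
  have hgg : En c g = Q s t c y := by
    unfold En Q
    refine Finset.sum_congr rfl fun e _ => ?_
    have := (hc e).ne'
    simp only [hg]
    field_simp
  have hgg2 : Q s t c y = y (s e0) - y (t e0) := by
    have h1 := sum_mul_dv s t g y
    have h2 : ∑ v, y v * dv s t g v = y (s e0) - y (t e0) := by
      simp_rw [hy, mul_sub, mul_ite, mul_one, mul_zero]
      rw [Finset.sum_sub_distrib]
      simp
    rw [h2] at h1
    rw [h1]
    unfold Q
    refine Finset.sum_congr rfl fun e _ => ?_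
    simp only [hg]
    ring
  have hcos : ∀ a : ℝ, (a = q ∨ a = -q) → (fun e => z e + a * g e) ∈ CosM s t b q := by
    intro a ha v
    have h1 : dv s t (fun e => z e + a * g e) v = b v + q * (k v : ℝ) +
        a * ((if s e0 = v then 1 else 0) - (if t e0 = v then 1 else 0)) := by
      rw [dv_add, dv_smul, hy, hk]
    rcases ha with rfl | rfl
    · refine ⟨k v + ((if s e0 = v then 1 else 0) - (if t e0 = v then 1 else 0)), ?_⟩
      rw [h1]
      push_cast
      ring
    · refine ⟨k v - ((if s e0 = v then 1 else 0) - (if t e0 = v then 1 else 0)), ?_⟩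
      rw [h1]
      push_cast
      ring
  have hQ : 0 ≤ Q s t c y := Finset.sum_nonneg fun e _ => mul_nonneg (hc e).le (sq_nonneg _)
  have hp := hmin _ (hcos q (Or.inl rfl))
  have hm := hmin _ (hcos (-q) (Or.inr rfl))
  rw [En_add, hzg, hgg] at hp hm
  have hxe := hx y e0
  rw [hgg2] at hxe hQ hp hm
  have hce := hc e0
  set r := y (s e0) - y (t e0) with hr
  have h1 : |z e0 / c e0| ≤ q / 2 * r := by
    rw [abs_le]
    constructor
    · have : 0 ≤ q * (z e0 / c e0 + q / 2 * r) := by nlinarith
      have := nonneg_of_mul_nonneg_right this hq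
      linarith
    · have : 0 ≤ q * (q / 2 * r - z e0 / c e0) := by nlinarith
      have := nonneg_of_mul_nonneg_right this hq
      linarith
  have h2 : |z e0| ≤ q / 2 * (c e0 * r) := by
    rw [abs_div, abs_of_pos hce, div_le_iff₀ hce] at h1
    linarith
  rcases hQ.eq_or_lt with h0' | h0'
  · rw [← h0'] at h2
    have h3 : z e0 = 0 := by
      rw [mul_zero, mul_zero] at h2
      exact abs_eq_zero.1 (le_antisymm h2 (abs_nonneg _))
    rw [h3, abs_zero]
    positivity
  · refine h2.trans ?_
    have h4 : c e0 * r * r ≤ x * r := by nlinarith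
    have h5 : c e0 * r ≤ x := le_of_mul_le_mul_right h4 h0'
    exact mul_le_mul_of_nonneg_left h5 (by positivity)

end Pool.Agent.Circ
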