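import Mathlib
import Pool.Agent.Work.MP_974d84_co_circ.M1
import Pool.Agent.Work.MP_974d84_co_circ.Rounding
import Pool.Agent.Work.MP_974d84_co_circ.Bridgeless
import Pool.Agent.Work.MP_974d84_co_mod.Lattice
import Pool.Agent.Work.MP_974d84_co_mod.Feasible

/-!
Divergences modulo `q` with small currents, from the partition bound; modular orientations.
-/

namespace Pool.Agent.Circ

open Finset

set_option linter.unusedSectionVars false

variable {V E : Type*} [Fintype V] [DecidableEq V] [Fintype E] [DecidableEq E]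

/-- The partition bound gives a nonempty cut for every nonempty proper set. -/
theorem cut_nonempty_of_theta (s t : E → V) (θ : ℝ)
    (hθ : ∀ p : V → ℕ, ((univ.image p).card : ℝ) - 1 ≤
      θ * ((univ.filter (fun e => p (s e) ≠ p (t e))).card : ℝ))
    (X : Finset V) (hX : X.Nonempty) (hXu : X ≠ univ) : (cut s t X).Nonempty := by
  have h := hθ (fun v => if v ∈ X then 1 else 0)
  have himg : (univ.image (fun v : V => if v ∈ X then 1 else 0)) = ({0, 1} : Finset ℕ) := by
    obtain ⟨a, ha⟩ := hX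
    obtain ⟨b, hb⟩ : ∃ b, b ∉ X := by
      by_contra hcon
      push Not at hcon
      exact hXu (Finset.eq_univ_of_forall hcon)
    ext j
    simp only [mem_image, mem_univ, true_and, mem_insert, mem_singleton]
    constructor
    · rintro ⟨v, rfl⟩
      by_cases hv : v ∈ X <;> simp [hv]
    · rintro (rfl | rfl)
      · exact ⟨b, by simp [hb]⟩
      · exact ⟨a, by simp [ha]⟩
  have hfil : (univ.filter (fun e => (if s e ∈ X then 1 else 0) ≠ (if t e ∈ X then 1 else 0))) =
      cut s t X := by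
    unfold cut
    refine Finset.filter_congr fun e _ => ?_
    by_cases h1 : s e ∈ X <;> by_cases h2 : t e ∈ X <;> simp [h1, h2]
  rw [himg, hfil] at h
  by_contra hemp
  rw [Finset.not_nonempty_iff_eq_empty] at hemp
  rw [hemp] at h
  norm_num at h

/-- The main theorem: a divergence congruent to `b` modulo `q` with all currents at most
`(q / 2) θ`. -/
theorem modular_core (s t : E → V) (θ : ℝ) (hθ0 : 0 ≤ θ)
    (hθ : ∀ p : V → ℕ, ((univ.image p).card : ℝ) - 1 ≤
      θ * ((univ.filter (fun e => p (s e) ≠ p (t e))).card : ℝ))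
    (q : ℝ) (hq : 0 < q) (b : V → ℝ) (K : ℤ) (hb : ∑ v, b v = q * K) :
    ∃ (z : E → ℝ) (k : V → ℤ), (∀ e, |z e| ≤ q / 2 * θ) ∧
      ∀ v, dv s t z v = b v + q * k v := by
  classical
  by_cases hV : Nonempty V
  swap
  · refine ⟨fun _ => 0, fun _ => 0, fun e => absurd ⟨s e⟩ hV, fun v => absurd ⟨v⟩ hV⟩
  obtain ⟨v0⟩ := hV
  -- a chain with the right divergence
  obtain ⟨z0, hz0⟩ := exists_dv_eq s t (fun X h1 h2 => cut_nonempty_of_theta s t θ hθ X h1 h2)
    (fun v => b v + q * ((if v = v0 then -K else 0 : ℤ) : ℝ)) (by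
      rw [Finset.sum_add_distrib, hb, ← Finset.mul_sum]
      have : ∑ v, (((if v = v0 then -K else 0 : ℤ) : ℝ)) = -K := by
        rw [Finset.sum_eq_single v0]
        · simp
        · intro v _ hv; simp [hv]
        · simp
      rw [this]
      ring)
  have step : ∀ n : ℕ, ∃ z ∈ CosM s t b q, ∀ e, |z e| ≤ q / 2 * (θ + 1 / ((n : ℝ) + 1)) := by
    intro n
    have hpos : 0 < 1 / ((n : ℝ) + 1) := by positivity
    obtain ⟨c, hc, hcx⟩ := exists_weights_theta s t θ hθ (θ + 1 / ((n : ℝ) + 1)) (by linarith)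
    obtain ⟨z, k, hz, hk⟩ := exists_lattice_mod s t c hc _ (by linarith) hcx b hq z0 _ hz0
    exact ⟨z, fun v => ⟨k v, hk v⟩, hz⟩
  choose F hF0 hF using step
  have hb' : ∀ n, F n ∈ Set.pi Set.univ
      (fun _ : E => Set.Icc (-(q / 2 * (θ + 1))) (q / 2 * (θ + 1))) := by
    intro n e _
    have h1 := hF n e
    have h2 : 1 / ((n : ℝ) + 1) ≤ 1 := by
      rw [div_le_one (by positivity)]
      have : (0 : ℝ) ≤ n := Nat.cast_nonneg n
      linarith
    have h3 : q / 2 * (θ + 1 / ((n : ℝ) + 1)) ≤ q / 2 * (θ + 1) :=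
      mul_le_mul_of_nonneg_left (by linarith) (by positivity)
    exact abs_le.mp (h1.trans h3)
  obtain ⟨z, _, φ, hφ, hlim⟩ :=
    (isCompact_univ_pi (fun _ : E => isCompact_Icc)).tendsto_subseq hb'
  have hz : z ∈ CosM s t b q :=
    (isClosed_cosM s t b hq).mem_of_tendsto hlim (Filter.Eventually.of_forall fun n => hF0 _)
  choose k hk using hz
  refine ⟨z, k, fun e => ?_, hk⟩
  have h1 : Filter.Tendsto (fun n => |F (φ n) e|) Filter.atTop (nhds |z e|) :=
    (((continuous_apply e).abs).tendsto z).comp hlim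
  have h2 : Filter.Tendsto (fun n : ℕ => q / 2 * (θ + 1 / ((φ n : ℝ) + 1))) Filter.atTop
      (nhds (q / 2 * θ)) := by
    have h3 := (tendsto_one_div_add_atTop_nhds_zero_nat (𝕜 := ℝ)).comp hφ.tendsto_atTop
    have h4 := (h3.const_add θ).const_mul (q / 2)
    simpa using h4
  exact le_of_tendsto_of_tendsto' h1 h2 (fun n => hF (φ n) e)

/-- The cut bound for the divergence of a bounded chain. -/
theorem abs_sum_dv_le (s t : E → V) (z : E → ℝ) (a : ℝ) (hz : ∀ e, |z e| ≤ a) (X : Finset V) :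
    |∑ v ∈ X, dv s t z v| ≤ a * (cut s t X).card := by
  rw [sum_dv, cut, Finset.card_filter]
  push_cast
  rw [Finset.mul_sum]
  refine (Finset.abs_sum_le_sum_abs _ _).trans (Finset.sum_le_sum fun e _ => ?_)
  have h := hz e
  have h0 := abs_nonneg (z e)
  by_cases h1 : s e ∈ X <;> by_cases h2 : t e ∈ X <;> simp [h1, h2] <;> linarith

/-- **Modular version of the partition bound.** -/
theorem modular_theta (s t : E → V) (θ : ℝ) (hθ0 : 0 ≤ θ)
    (hθ : ∀ p : V → ℕ, ((univ.image p).card : ℝ) - 1 ≤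
      θ * ((univ.filter (fun e => p (s e) ≠ p (t e))).card : ℝ))
    (q : ℕ) (hq : 0 < q) (b : V → ℤ) (hb : (q : ℤ) ∣ ∑ v, b v) :
    ∃ x : V → ℤ, (∀ v, (q : ℤ) ∣ x v - b v) ∧
      ∀ X : Finset V, |((∑ v ∈ X, x v : ℤ) : ℝ)| ≤ q / 2 * θ * (cut s t X).card := by
  obtain ⟨K, hK⟩ := hb
  obtain ⟨z, k, hz, hk⟩ := modular_core s t θ hθ0 hθ (q : ℝ) (by exact_mod_cast hq)
    (fun v => (b v : ℝ)) K (by exact_mod_cast hK)
  refine ⟨fun v => b v + q * k v, fun v => ⟨k v, by ring⟩, fun X => ?_⟩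
  have h := abs_sum_dv_le s t z _ hz X
  refine le_trans (le_of_eq ?_) h
  push_cast
  congr 1
  exact Finset.sum_congr rfl fun v _ => (hk v).symm

/-- **Modular orientations.** If the partition bound holds with `θ = 1 / m` (for instance if the
graph has `m` edge-disjoint spanning trees), every `b` which has the parity of the degrees and sum
divisible by `2 m` is the divergence of an orientation modulo `2 m`. -/
theorem modular_orientation (s t : E → V) (m : ℕ) (hm : 0 < m)
    (hθ : ∀ p : V → ℕ, (m : ℝ) * (((univ.image p).card : ℝ) - 1) ≤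
      ((univ.filter (fun e => p (s e) ≠ p (t e))).card : ℝ))
    (b : V → ℤ) (hb : ((2 * m : ℕ) : ℤ) ∣ ∑ v, b v)
    (hpar : ∀ v, ∃ j : ℤ, (b v : ℝ) = dv s t (fun _ => 1) v + 2 * j) :
    ∃ (o : E → ℝ) (k : V → ℤ), (∀ e, o e = 1 ∨ o e = -1) ∧
      ∀ v, dv s t o v = b v + 2 * m * k v := by
  have hmR : (0 : ℝ) < m := by exact_mod_cast hm
  obtain ⟨K, hK⟩ := hb
  obtain ⟨z, k, hz, hk⟩ := modular_core s t (1 / m) (by positivity) (fun p => by
      have := hθ p
      rw [one_div, inv_mul_eq_div, le_div_iff₀ hmR]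
      linarith) (2 * m) (by positivity)
    (fun v => (b v : ℝ)) K (by
      have : ((∑ v, b v : ℤ) : ℝ) = (((2 * m : ℕ) : ℤ) * K : ℤ) := by exact_mod_cast hK
      push_cast at this
      exact this)
  choose j hj using hpar
  have hz1 : ∀ e, |z e| ≤ 1 := by
    intro e
    have h1 := hz e
    have h2 : (2 * (m : ℝ)) / 2 * (1 / m) = 1 := by field_simp
    rwa [h2] at h1
  obtain ⟨o, ho, hdo⟩ := rounding s t z hz1 (fun v => j v + m * k v) (fun v => by
    rw [hk v, hj v]
    push_cast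
    ring)
  exact ⟨o, k, ho, fun v => by rw [hdo v, hk v]⟩

end Pool.Agent.Circ
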